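import Pool.Agent.U562.WV.Stm
import Pool.Agent.K7.H98.GMC.Arch

set_option autoImplicit false

/-! Job KEY of project WV, part A: the surface measure. -/

open MeasureTheory Set Metric Filter Topology
open scoped ENNReal NNReal RealInnerProductSpace

namespace Pool.Agent.U473.WV.KEY

open Pool.Agent.U562.WV

instance : IsFiniteMeasure sg := by
  unfold sg
  infer_instance

lemma lint_sg {F : E 3 → ℝ≥0∞} :
    ∫⁻ w, F w ∂sg = ∫⁻ x : sphere (0 : E 3) 1, F x ∂((volume : Measure (E 3)).toSphere) := by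
  unfold sg
  exact (MeasurableEmbedding.subtype_coe (isClosed_sphere.measurableSet)).lintegral_map F

lemma sg_norm : ∀ᵐ w ∂sg, ‖w‖ = 1 := by
  unfold sg
  rw [ae_map_iff measurable_subtype_coe.aemeasurable
    (measurableSet_eq_fun measurable_norm measurable_const)]
  refine ae_of_all _ fun x => ?_
  have := x.2
  rwa [mem_sphere_zero_iff_norm] at this

lemma height_sg {w : E 3} (hw : ‖w‖ = 1) {G : ℝ → ℝ≥0∞} (hG : Measurable G) :
    ∫⁻ w', G ⟪w, w'⟫ ∂sg = ENNReal.ofReal (2 * Real.pi) * ∫⁻ t in Ioo (-1 : ℝ) 1, G t := by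
  rw [lint_sg]
  exact Pool.Agent.K7.H98.GMC.Arch.sphere_height ⟨w, by rwa [mem_sphere_zero_iff_norm]⟩ G hG

lemma sg_ne {w : E 3} (hw : ‖w‖ = 1) : ∀ᵐ w' ∂sg, w + w' ≠ 0 := by
  have h1 := height_sg hw (G := ({-1} : Set ℝ).indicator fun _ => 1)
    (measurable_const.indicator (measurableSet_singleton _))
  have h2 : ∫⁻ t in Ioo (-1 : ℝ) 1, ({-1} : Set ℝ).indicator (fun _ => (1 : ℝ≥0∞)) t = 0 := by
    rw [lintegral_indicator (measurableSet_singleton _), setLIntegral_const, one_mul,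
      Measure.restrict_apply (measurableSet_singleton _)]
    have : ({-1} : Set ℝ) ∩ Ioo (-1) 1 = ∅ := by
      ext x
      simp only [mem_inter_iff, mem_singleton_iff, mem_Ioo, mem_empty_iff_false, iff_false,
        not_and, not_lt]
      intro h1 h2
      linarith
    rw [this, measure_empty]
  rw [h2, mul_zero, lintegral_eq_zero_iff'] at h1
  · filter_upwards [h1] with w' h3 h4
    have h5 : w' = -w := (neg_eq_of_add_eq_zero_right h4).symm
    rw [h5] at h3
    simp only [inner_neg_right, real_inner_self_eq_norm_sq, hw, Pi.zero_apply] at h3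
    norm_num at h3
  · apply Measurable.aemeasurable
    apply (measurable_const.indicator (measurableSet_singleton _)).comp
    fun_prop

lemma integrable_inv {w : E 3} (hw : ‖w‖ = 1) : Integrable (fun w' => ‖w + w'‖⁻¹) sg := by
  have hm : Measurable fun w' : E 3 => ‖w + w'‖⁻¹ := by fun_prop
  refine ⟨hm.aestronglyMeasurable, ?_⟩
  have hG : Measurable fun c : ℝ => ENNReal.ofReal ((c + 1) ^ (-(1 / 2) : ℝ)) := by fun_prop
  have h1 := height_sg hw hG
  have h2 : ∫⁻ c in Ioo (-1 : ℝ) 1, ENNReal.ofReal ((c + 1) ^ (-(1 / 2) : ℝ)) < ∞ := by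
    have h3 : IntervalIntegrable (fun x : ℝ => x ^ (-(1 / 2) : ℝ)) volume 0 2 :=
      intervalIntegral.intervalIntegrable_rpow' (by norm_num)
    have h4 := h3.comp_add_right 1
    norm_num at h4
    rw [intervalIntegrable_iff_integrableOn_Ioo_of_le (by norm_num)] at h4
    have h5 := h4.2
    rw [hasFiniteIntegral_iff_norm] at h5
    refine lt_of_le_of_lt (setLIntegral_mono' measurableSet_Ioo fun c hc => ?_) h5
    apply ENNReal.ofReal_le_ofReal
    rw [show (-(1 / 2) : ℝ) = -1 / 2 by norm_num]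
    exact le_abs_self _
  rw [hasFiniteIntegral_iff_norm]
  have h6 : ∫⁻ w', ENNReal.ofReal ‖‖w + w'‖⁻¹‖ ∂sg ≤
      ∫⁻ w', ENNReal.ofReal ((⟪w, w'⟫ + 1) ^ (-(1 / 2) : ℝ)) ∂sg := by
    apply lintegral_mono_ae
    filter_upwards [sg_norm, sg_ne hw] with w' h7 h8
    apply ENNReal.ofReal_le_ofReal
    have h9 : ‖w + w'‖ ^ 2 = 2 * (⟪w, w'⟫ + 1) := by
      rw [norm_add_sq_real, hw, h7]
      ring
    have h10 : 0 < ‖w + w'‖ := norm_pos_iff.2 h8
    have h11 : 0 < ⟪w, w'⟫ + 1 := by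
      have : 0 < ‖w + w'‖ ^ 2 := by positivity
      linarith
    rw [Real.norm_eq_abs, abs_of_pos (by positivity), Real.rpow_neg h11.le,
      ← Real.sqrt_eq_rpow]
    apply inv_anti₀ (Real.sqrt_pos.2 h11)
    rw [Real.sqrt_le_left h10.le, h9]
    linarith
  refine lt_of_le_of_lt h6 ?_
  rw [h1]
  exact ENNReal.mul_lt_top ENNReal.ofReal_lt_top h2

lemma sg_restrict : sg.restrict (sphere (0 : E 3) 1) = sg := by
  apply Measure.restrict_eq_self_of_ae_mem
  filter_upwards [sg_norm] with w hw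
  rwa [mem_sphere_zero_iff_norm]

/-- the integrand -/
noncomputable def Gi (g : E 3 → ℂ) (t : ℝ) (x w : E 3) : ℂ :=
  g (x + t • w) + (t : ℂ) * fderiv ℝ g (x + t • w) w

lemma Gi_cont {g : E 3 → ℂ} (hg : ContDiff ℝ 1 g) :
    Continuous fun p : (ℝ × E 3) × E 3 => Gi g p.1.1 p.1.2 p.2 := by
  unfold Gi
  have h1 := hg.continuous
  have h2 := hg.continuous_fderiv one_ne_zero
  have h3 : Continuous fun p : (ℝ × E 3) × E 3 => fderiv ℝ g (p.1.2 + p.1.1 • p.2) :=
    h2.comp (by fun_prop)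
  have h4 : Continuous fun p : (ℝ × E 3) × E 3 => fderiv ℝ g (p.1.2 + p.1.1 • p.2) p.2 :=
    h3.clm_apply continuous_snd
  fun_prop

lemma U_cont {g : E 3 → ℂ} (hg : ContDiff ℝ 1 g) :
    Continuous fun p : ℝ × E 3 => U g p.1 p.2 := by
  unfold U
  apply continuous_const.mul
  have h := continuous_parametric_integral_of_continuous (μ := sg)
    (f := fun (p : ℝ × E 3) (w : E 3) => Gi g p.1 p.2 w) (Gi_cont hg)
    (isCompact_sphere (0 : E 3) 1)
  rw [sg_restrict] at h
  exact h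

end Pool.Agent.U473.WV.KEY
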