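import Pool.Agent.U473.WV.A

set_option autoImplicit false

/-! Job KEY of project WV: cut-offs near the point and near infinity, Fatou. -/

open MeasureTheory Set Metric Filter Topology
open scoped ENNReal NNReal RealInnerProductSpace

namespace Pool.Agent.U473.WV.KEY

open Pool.Agent.U562.WV

/-- the derivative of the smooth transition is bounded on `[-1, 1]` and zero above `1` -/
lemma exists_M : ∃ M : ℝ, 0 ≤ M ∧ ∀ x : ℝ, -1 ≤ x →
    |deriv Real.smoothTransition x| ≤ M ∧ (1 < x → deriv Real.smoothTransition x = 0) := by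
  have hc : Continuous (deriv Real.smoothTransition) :=
    (Real.smoothTransition.contDiff (n := 1)).continuous_deriv le_rfl
  obtain ⟨M, hM⟩ := (isCompact_Icc (a := (-1 : ℝ)) (b := 1)).exists_bound_of_continuousOn
    hc.continuousOn
  have hz : ∀ x : ℝ, 1 < x → deriv Real.smoothTransition x = 0 := by
    intro x hx
    have h1 : Real.smoothTransition =ᶠ[𝓝 x] fun _ => 1 := by
      filter_upwards [Ioi_mem_nhds hx] with y hy
      exact Real.smoothTransition.one_of_one_le (le_of_lt hy)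
    rw [h1.deriv_eq, deriv_const]
  refine ⟨M, (norm_nonneg _).trans (hM 0 ⟨by norm_num, by norm_num⟩), fun x hx => ⟨?_, hz x⟩⟩
  by_cases h1 : x ≤ 1
  · have := hM x ⟨hx, h1⟩
    rwa [Real.norm_eq_abs] at this
  · rw [hz x (not_le.1 h1), abs_zero]
    exact (norm_nonneg _).trans (hM 0 ⟨by norm_num, by norm_num⟩)

/-- the cut-off -/
noncomputable def chi (T : ℝ) (n : ℕ) (z : E 3) : ℝ :=
  Real.smoothTransition ((n : ℝ) ^ 2 * ‖z‖ ^ 2 - 1) *
    Real.smoothTransition ((2 * T + 2) ^ 2 - ‖z‖ ^ 2)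

lemma chi_cd (T : ℝ) (n : ℕ) : ContDiff ℝ 1 (chi T n) := by
  unfold chi
  have h : ContDiff ℝ 1 fun z : E 3 => ‖z‖ ^ 2 := contDiff_norm_sq ℝ
  apply ContDiff.mul
  · exact (Real.smoothTransition.contDiff (n := 1)).comp ((contDiff_const.mul h).sub contDiff_const)
  · exact (Real.smoothTransition.contDiff (n := 1)).comp (contDiff_const.sub h)

lemma chi_le (T : ℝ) (n : ℕ) (z : E 3) : |chi T n z| ≤ 1 := by
  unfold chi
  rw [abs_mul, abs_of_nonneg (Real.smoothTransition.nonneg _),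
    abs_of_nonneg (Real.smoothTransition.nonneg _)]
  exact mul_le_one₀ (Real.smoothTransition.le_one _) (Real.smoothTransition.nonneg _)
    (Real.smoothTransition.le_one _)

lemma chi_out {T : ℝ} (hT : 0 < T) (n : ℕ) {z : E 3} (hz : 2 * T + 2 ≤ ‖z‖) : chi T n z = 0 := by
  unfold chi
  rw [Real.smoothTransition.zero_of_nonpos (x := (2 * T + 2) ^ 2 - ‖z‖ ^ 2), mul_zero]
  have : (2 * T + 2) ^ 2 ≤ ‖z‖ ^ 2 := pow_le_pow_left₀ (by linarith) hz 2
  linarith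

lemma chi_in {T : ℝ} {n : ℕ} (hn : 0 < n) {z : E 3} (hz : ‖z‖ ≤ 1 / n) : chi T n z = 0 := by
  unfold chi
  rw [Real.smoothTransition.zero_of_nonpos (x := (n : ℝ) ^ 2 * ‖z‖ ^ 2 - 1), zero_mul]
  have hn' : (0 : ℝ) < n := by exact_mod_cast hn
  have h1 : (n : ℝ) * ‖z‖ ≤ 1 := by
    rw [le_div_iff₀ hn'] at hz
    linarith
  have h2 : 0 ≤ (n : ℝ) * ‖z‖ := by positivity
  nlinarith

/-- the part near the origin -/
noncomputable def An (n : ℕ) (z : E 3) : ℝ := Real.smoothTransition ((n : ℝ) ^ 2 * ‖z‖ ^ 2 - 1)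

lemma chi_eq {T : ℝ} (hT : 0 < T) (n : ℕ) {z : E 3} (hz : ‖z‖ ≤ 2 * T) :
    chi T n =ᶠ[𝓝 z] An n := by
  have h : {y : E 3 | ‖y‖ < 2 * T + 1} ∈ 𝓝 z :=
    (isOpen_lt continuous_norm continuous_const).mem_nhds (by
      show ‖z‖ < 2 * T + 1; linarith)
  filter_upwards [h] with y hy
  unfold chi An
  have hy : ‖y‖ < 2 * T + 1 := hy
  rw [Real.smoothTransition.one_of_one_le (x := (2 * T + 2) ^ 2 - ‖y‖ ^ 2), mul_one]
  have : ‖y‖ ^ 2 ≤ (2 * T + 1) ^ 2 := pow_le_pow_left₀ (norm_nonneg _) hy.le 2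
  nlinarith

lemma An_fd {M : ℝ} (hM0 : 0 ≤ M) (hM : ∀ x : ℝ, -1 ≤ x →
    |deriv Real.smoothTransition x| ≤ M ∧ (1 < x → deriv Real.smoothTransition x = 0))
    (n : ℕ) {z : E 3} (hz : z ≠ 0) : ‖fderiv ℝ (An n) z‖ ≤ 4 * M / ‖z‖ := by
  have hz0 : 0 < ‖z‖ := norm_pos_iff.2 hz
  set x := (n : ℝ) ^ 2 * ‖z‖ ^ 2 - 1 with hx
  have hx1 : -1 ≤ x := by
    rw [hx]
    have : 0 ≤ (n : ℝ) ^ 2 * ‖z‖ ^ 2 := by positivity
    linarith
  have h1 : HasFDerivAt (fun z : E 3 => (n : ℝ) ^ 2 * ‖z‖ ^ 2 - 1)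
      ((n : ℝ) ^ 2 • (2 • (innerSL ℝ z))) z :=
    ((hasStrictFDerivAt_norm_sq z).hasFDerivAt.const_mul _).sub_const _
  have h2 : HasDerivAt Real.smoothTransition (deriv Real.smoothTransition x) x :=
    ((Real.smoothTransition.contDiff (n := 1)).differentiable one_ne_zero x).hasDerivAt
  have h3 : HasFDerivAt (An n)
      (deriv Real.smoothTransition x • ((n : ℝ) ^ 2 • (2 • (innerSL ℝ z)))) z :=
    h2.comp_hasFDerivAt z h1
  rw [h3.fderiv, norm_smul, norm_smul, Real.norm_eq_abs, Real.norm_eq_abs,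
    abs_of_nonneg (by positivity : (0 : ℝ) ≤ (n : ℝ) ^ 2)]
  have h4 : ‖(2 • (innerSL ℝ z) : E 3 →L[ℝ] ℝ)‖ ≤ 2 * ‖z‖ := by
    refine (norm_nsmul_le).trans ?_
    rw [innerSL_apply_norm]
    norm_num
  by_cases h5 : 1 < x
  · rw [(hM x hx1).2 h5, abs_zero, zero_mul]
    positivity
  · push Not at h5
    have h6 := (hM x hx1).1
    have h7 : (n : ℝ) ^ 2 * ‖z‖ ^ 2 ≤ 2 := by linarith
    have h8 : (n : ℝ) ^ 2 * ‖z‖ ≤ 2 / ‖z‖ := by
      rw [le_div_iff₀ hz0]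
      calc (n : ℝ) ^ 2 * ‖z‖ * ‖z‖ = (n : ℝ) ^ 2 * ‖z‖ ^ 2 := by ring
        _ ≤ 2 := h7
    calc |deriv Real.smoothTransition x| * ((n : ℝ) ^ 2 * ‖(2 • (innerSL ℝ z) : E 3 →L[ℝ] ℝ)‖)
        ≤ M * ((n : ℝ) ^ 2 * (2 * ‖z‖)) := by
          apply mul_le_mul h6 _ (by positivity) hM0
          exact mul_le_mul_of_nonneg_left h4 (by positivity)
      _ = 2 * M * ((n : ℝ) ^ 2 * ‖z‖) := by ring
      _ ≤ 2 * M * (2 / ‖z‖) := mul_le_mul_of_nonneg_left h8 (by positivity)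
      _ = 4 * M / ‖z‖ := by ring

/-- the truncated function -/
noncomputable def gn (g : E 3 → ℂ) (T : ℝ) (n : ℕ) (z : E 3) : ℂ := (chi T n z : ℂ) * g z

lemma gn_cd {g : E 3 → ℂ} (hg : ContDiff ℝ 1 g) (T : ℝ) (n : ℕ) : ContDiff ℝ 1 (gn g T n) := by
  unfold gn
  exact (Complex.ofRealCLM.contDiff.comp (chi_cd T n)).mul hg

lemma gn_Cc {g : E 3 → ℂ} (hg : ContDiff ℝ 1 g) {T : ℝ} (hT : 0 < T) {n : ℕ} (hn : 0 < n) :
    Cc (gn g T n) := by
  refine ⟨gn_cd hg T n, 1 / n, 2 * T + 2, by positivity, fun x hx => ?_⟩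
  unfold gn
  rcases hx with h | h
  · rw [chi_in hn h]; simp
  · rw [chi_out hT n h]; simp

lemma gn_norm {g : E 3 → ℂ} (T : ℝ) (n : ℕ) (z : E 3) : ‖gn g T n z‖ ≤ ‖g z‖ := by
  unfold gn
  rw [norm_mul, Complex.norm_real, Real.norm_eq_abs]
  exact mul_le_of_le_one_left (norm_nonneg _) (chi_le T n z)

lemma gn_fd {M : ℝ} (hM0 : 0 ≤ M) (hM : ∀ x : ℝ, -1 ≤ x →
    |deriv Real.smoothTransition x| ≤ M ∧ (1 < x → deriv Real.smoothTransition x = 0))
    {g : E 3 → ℂ} (hg : ContDiff ℝ 1 g) {T : ℝ} (hT : 0 < T) (n : ℕ) {z : E 3} (hz : z ≠ 0)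
    (hz2 : ‖z‖ ≤ 2 * T) :
    ‖fderiv ℝ (gn g T n) z‖ ≤ ‖fderiv ℝ g z‖ + ‖g z‖ * (4 * M / ‖z‖) := by
  have h1 : gn g T n =ᶠ[𝓝 z] fun y => ((An n y : ℝ) : ℂ) * g y := by
    filter_upwards [chi_eq hT n hz2] with y hy
    unfold gn
    rw [hy]
  have hAn : DifferentiableAt ℝ (An n) z := by
    have : ContDiff ℝ 1 (An n) := by
      unfold An
      exact (Real.smoothTransition.contDiff (n := 1)).comp
        ((contDiff_const.mul (contDiff_norm_sq ℝ)).sub contDiff_const)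
    exact this.differentiable one_ne_zero z
  have hg1 : HasFDerivAt g (fderiv ℝ g z) z := (hg.differentiable one_ne_zero z).hasFDerivAt
  have h2 : HasFDerivAt (fun y => ((An n y : ℝ) : ℂ))
      (Complex.ofRealCLM.comp (fderiv ℝ (An n) z)) z :=
    Complex.ofRealCLM.hasFDerivAt.comp z hAn.hasFDerivAt
  have h3 : HasFDerivAt (fun y => ((An n y : ℝ) : ℂ) * g y)
      (((An n z : ℝ) : ℂ) • fderiv ℝ g z +
        g z • Complex.ofRealCLM.comp (fderiv ℝ (An n) z)) z := h2.mul hg1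
  rw [h1.fderiv_eq, h3.fderiv]
  refine (norm_add_le _ _).trans (add_le_add ?_ ?_)
  · rw [norm_smul, Complex.norm_real, Real.norm_eq_abs]
    apply mul_le_of_le_one_left (norm_nonneg _)
    unfold An
    rw [abs_of_nonneg (Real.smoothTransition.nonneg _)]
    exact Real.smoothTransition.le_one _
  · rw [norm_smul]
    apply mul_le_mul_of_nonneg_left _ (norm_nonneg _)
    refine (ContinuousLinearMap.opNorm_comp_le _ _).trans ?_
    rw [Complex.ofRealCLM_norm, one_mul]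
    exact An_fd hM0 hM n hz

lemma gn_ev {g : E 3 → ℂ} {T : ℝ} (hT : 0 < T) {z : E 3} (hz : z ≠ 0) (hz2 : ‖z‖ ≤ 2 * T) :
    ∀ᶠ n : ℕ in atTop, gn g T n =ᶠ[𝓝 z] g := by
  have hz0 : 0 < ‖z‖ := norm_pos_iff.2 hz
  obtain ⟨N, hN⟩ := exists_nat_gt (4 / ‖z‖)
  filter_upwards [eventually_ge_atTop N] with n hn
  have hn' : 4 / ‖z‖ < n := hN.trans_le (by exact_mod_cast hn)
  have h1 : {y : E 3 | ‖z‖ / 2 < ‖y‖} ∈ 𝓝 z :=
    (isOpen_lt continuous_const continuous_norm).mem_nhds (by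
      show ‖z‖ / 2 < ‖z‖; linarith)
  filter_upwards [chi_eq hT n hz2, h1] with y hy hy2
  unfold gn
  rw [hy]
  unfold An
  rw [Real.smoothTransition.one_of_one_le]
  · simp
  · have hy2 : ‖z‖ / 2 < ‖y‖ := hy2
    have h2 : 2 < (n : ℝ) * ‖y‖ := by
      rw [div_lt_iff₀ hz0] at hn'
      have hn0 : (0 : ℝ) < n := by
        by_contra h
        have : (n : ℝ) = 0 := le_antisymm (not_lt.1 h) (Nat.cast_nonneg n)
        rw [this] at hn'
        linarith
      nlinarith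
    nlinarith

/-- pointwise convergence of the means -/
lemma U_tendsto {g : E 3 → ℂ} (hg : ContDiff ℝ 1 g) {T : ℝ} (hT : 0 < T) {w : E 3} (hw : ‖w‖ = 1)
    {t : ℝ} (ht : 0 < t) (htT : t ≤ T) :
    Tendsto (fun n : ℕ => U (gn g T n) t (t • w)) atTop (𝓝 (U g t (t • w))) := by
  obtain ⟨M, hM0, hM⟩ := exists_M
  obtain ⟨B0, hB0⟩ := (isCompact_closedBall (0 : E 3) (2 * T)).exists_bound_of_continuousOn
    hg.continuous.continuousOn
  obtain ⟨B1, hB1⟩ := (isCompact_closedBall (0 : E 3) (2 * T)).exists_bound_of_continuousOn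
    (hg.continuous_fderiv one_ne_zero).continuousOn
  have hB00 : 0 ≤ B0 := (norm_nonneg _).trans (hB0 0 (by simp; linarith))
  have hB10 : 0 ≤ B1 := (norm_nonneg _).trans (hB1 0 (by simp; linarith))
  unfold U
  apply Tendsto.const_mul
  have hmeas : ∀ n, AEStronglyMeasurable (fun w' => Gi (gn g T n) t (t • w) w') sg := fun n =>
    ((Gi_cont (gn_cd hg T n)).comp (by fun_prop : Continuous fun w' : E 3 =>
      (((t, t • w) : ℝ × E 3), w'))).aestronglyMeasurable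
  refine tendsto_integral_of_dominated_convergence
    (F := fun n w' => Gi (gn g T n) t (t • w) w') (f := fun w' => Gi g t (t • w) w')
    (fun w' => B0 + t * B1 + 4 * M * B0 * ‖w + w'‖⁻¹) hmeas
    ((integrable_const _).add ((integrable_inv hw).const_mul _)) ?_ ?_
  · intro n
    filter_upwards [sg_norm, sg_ne hw] with w' h1 h2
    have hz : t • w + t • w' = t • (w + w') := (smul_add _ _ _).symm
    have hz0 : t • w + t • w' ≠ 0 := by
      rw [hz]; exact smul_ne_zero ht.ne' h2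
    have hzn : ‖t • w + t • w'‖ = t * ‖w + w'‖ := by
      rw [hz, norm_smul, Real.norm_eq_abs, abs_of_pos ht]
    have hz2 : ‖t • w + t • w'‖ ≤ 2 * T := by
      rw [hzn]
      have : ‖w + w'‖ ≤ 2 := (norm_add_le _ _).trans (by rw [hw, h1]; norm_num)
      nlinarith
    have hmem : t • w + t • w' ∈ closedBall (0 : E 3) (2 * T) := by
      rwa [mem_closedBall_zero_iff]
    have e1 := hB0 _ hmem
    have e2 := hB1 _ hmem
    have e3 := gn_fd hM0 hM hg hT n hz0 hz2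
    have e4 := gn_norm (g := g) T n (t • w + t • w')
    have hp : 0 < ‖w + w'‖ := norm_pos_iff.2 h2
    unfold Gi
    calc ‖gn g T n (t • w + t • w') + (t : ℂ) * fderiv ℝ (gn g T n) (t • w + t • w') w'‖
        ≤ ‖gn g T n (t • w + t • w')‖ +
          ‖(t : ℂ) * fderiv ℝ (gn g T n) (t • w + t • w') w'‖ := norm_add_le _ _
      _ ≤ B0 + t * (B1 + B0 * (4 * M / (t * ‖w + w'‖))) := by
          apply add_le_add (e4.trans e1)
          rw [norm_mul, Complex.norm_real, Real.norm_eq_abs, abs_of_pos ht]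
          apply mul_le_mul_of_nonneg_left _ ht.le
          refine (ContinuousLinearMap.le_opNorm _ _).trans ?_
          rw [h1, mul_one]
          refine e3.trans (add_le_add e2 ?_)
          rw [hzn]
          exact mul_le_mul_of_nonneg_right e1 (by positivity)
      _ = B0 + t * B1 + 4 * M * B0 * ‖w + w'‖⁻¹ := by
          have ht0 : t ≠ 0 := ht.ne'
          have hp0 : ‖w + w'‖ ≠ 0 := hp.ne'
          field_simp
          ring
  · filter_upwards [sg_norm, sg_ne hw] with w' h1 h2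
    have hz : t • w + t • w' = t • (w + w') := (smul_add _ _ _).symm
    have hz0 : t • w + t • w' ≠ 0 := by
      rw [hz]; exact smul_ne_zero ht.ne' h2
    have hz2 : ‖t • w + t • w'‖ ≤ 2 * T := by
      rw [hz, norm_smul, Real.norm_eq_abs, abs_of_pos ht]
      have : ‖w + w'‖ ≤ 2 := (norm_add_le _ _).trans (by rw [hw, h1]; norm_num)
      nlinarith
    apply tendsto_const_nhds.congr'
    filter_upwards [gn_ev (g := g) hT hz0 hz2] with n hn
    unfold Gi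
    rw [hn.fderiv_eq, hn.self_of_nhds]

lemma U_translate (g : E 3 → ℂ) (y : E 3) (t : ℝ) (x : E 3) :
    U (fun z => g (y + z)) t x = U g t (y + x) := by
  unfold U
  congr 1
  apply integral_congr_ae
  refine ae_of_all _ fun w => ?_
  simp only
  rw [fderiv_comp_add_left, add_assoc]

/-- Fatou's lemma, twice -/
lemma fatou2 (V : ℕ → E 3 → ℝ → ℝ≥0∞) (hV : ∀ n, Measurable fun p : E 3 × ℝ => V n p.1 p.2)
    (V0 : E 3 → ℝ → ℝ≥0∞) (T : ℝ) (R : ℝ≥0∞)
    (h : ∀ᵐ w ∂sg, ∀ t ∈ Ioc 0 T, Tendsto (fun n => V n w t) atTop (𝓝 (V0 w t)))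
    (hR : ∀ n, ∫⁻ w, (∫⁻ t in Ioc 0 T, V n w t) ∂sg ≤ R) :
    ∫⁻ w, (∫⁻ t in Ioc 0 T, V0 w t) ∂sg ≤ R := by
  have hF : ∀ᵐ w ∂sg, (∫⁻ t in Ioc 0 T, V0 w t) ≤
      liminf (fun n : ℕ => ∫⁻ t in Ioc 0 T, V n w t) atTop := by
    filter_upwards [h] with w hw
    have hL := lintegral_liminf_le (u := (atTop : Filter ℕ)) (μ := volume.restrict (Ioc 0 T))
      (f := fun (n : ℕ) (t : ℝ) => V n w t)
      (fun n => (hV n).comp (measurable_prodMk_left (x := w)))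
    refine le_trans ?_ hL
    refine setLIntegral_mono' measurableSet_Ioc fun t ht => ?_
    exact le_of_eq (hw t ht).liminf_eq.symm
  calc ∫⁻ w, (∫⁻ t in Ioc 0 T, V0 w t) ∂sg
      ≤ ∫⁻ w, liminf (fun n : ℕ => ∫⁻ t in Ioc 0 T, V n w t) atTop ∂sg :=
        lintegral_mono_ae hF
    _ ≤ liminf (fun n : ℕ => ∫⁻ w, (∫⁻ t in Ioc 0 T, V n w t) ∂sg) atTop := by
        exact lintegral_liminf_le fun n => (hV n).lintegral_prod_right'
    _ ≤ liminf (fun _ : ℕ => R) atTop :=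
        liminf_le_liminf (Eventually.of_forall hR)
    _ = R := liminf_const _

lemma U_meas {G : E 3 → ℂ} (hG : ContDiff ℝ 1 G) :
    Measurable fun p : E 3 × ℝ => ‖U G p.2 (p.2 • p.1)‖ₑ ^ 2 := by
  have h0 : Continuous fun p : E 3 × ℝ => ((p.2, p.2 • p.1) : ℝ × E 3) := by fun_prop
  have h1 : Continuous fun p : E 3 × ℝ => U G p.2 (p.2 • p.1) := (U_cont hG).comp h0
  exact h1.measurable.enorm.pow_const 2

lemma abstr (G : ℕ → E 3 → ℂ) (hG : ∀ n, ContDiff ℝ 1 (G n)) (g : E 3 → ℂ) (T : ℝ) (R : ℝ≥0∞)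
    (hl : ∀ w : E 3, ‖w‖ = 1 → ∀ t ∈ Ioc 0 T,
      Tendsto (fun n : ℕ => U (G n) t (t • w)) atTop (𝓝 (U g t (t • w))))
    (hR : ∀ n, ∫⁻ w, (∫⁻ t in Ioc 0 T, ‖U (G n) t (t • w)‖ₑ ^ 2) ∂sg ≤ R) :
    ∫⁻ w, (∫⁻ t in Ioc 0 T, ‖U g t (t • w)‖ₑ ^ 2) ∂sg ≤ R := by
  refine fatou2 (fun n w t => ‖U (G n) t (t • w)‖ₑ ^ 2) (fun n => U_meas (hG n))
    (fun w t => ‖U g t (t • w)‖ₑ ^ 2) T R ?_ hR
  filter_upwards [sg_norm] with w hw t ht
  exact ((ENNReal.continuous_pow 2).tendsto _).comp (hl w hw t ht).enorm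

/-- the estimate at the origin -/
lemma key0 (h0 : S_KEY0) {g : E 3 → ℂ} (hg : ContDiff ℝ 1 g) {T : ℝ} (hT : 0 < T) :
    ∫⁻ w, (∫⁻ t in Ioc 0 T, ‖U g t (t • w)‖ₑ ^ 2) ∂sg ≤
      ∫⁻ z in ball 0 (2 * T + 2), ‖g z‖ₑ ^ 2 / ‖z‖ₑ ^ 2 := by
  set R := ∫⁻ z in ball (0 : E 3) (2 * T + 2), ‖g z‖ₑ ^ 2 / ‖z‖ₑ ^ 2 with hR
  -- the bound for the truncated functions
  have hn : ∀ n : ℕ, ∫⁻ w, (∫⁻ t in Ioc 0 T, ‖U (gn g T (n + 1)) t (t • w)‖ₑ ^ 2) ∂sg ≤ R := by
    intro n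
    have h1 := h0 (gn g T (n + 1)) (gn_Cc hg hT (Nat.succ_pos n))
    refine (lintegral_mono fun w => ?_).trans (h1.trans ?_)
    · exact lintegral_mono_set fun t ht => ht.1
    · rw [hR, ← lintegral_indicator measurableSet_ball]
      refine lintegral_mono fun z => ?_
      by_cases hz : z ∈ ball (0 : E 3) (2 * T + 2)
      · rw [indicator_of_mem hz]
        apply ENNReal.div_le_div_right
        gcongr
        rw [← ofReal_norm, ← ofReal_norm]
        exact ENNReal.ofReal_le_ofReal (gn_norm T (n + 1) z)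
      · rw [indicator_of_notMem hz]
        rw [mem_ball_zero_iff, not_lt] at hz
        unfold gn
        rw [chi_out hT (n + 1) hz]
        simp
  have hc : ∀ n : ℕ, ContDiff ℝ 1 (gn g T (n + 1)) := fun n => gn_cd hg T (n + 1)
  have hl : ∀ w : E 3, ‖w‖ = 1 → ∀ t ∈ Ioc 0 T,
      Tendsto (fun n : ℕ => U (gn g T (n + 1)) t (t • w)) atTop (𝓝 (U g t (t • w))) := by
    intro w hw t ht
    exact (tendsto_add_atTop_iff_nat (f := fun n : ℕ => U (gn g T n) t (t • w)) 1).2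
      (U_tendsto hg hT hw ht.1 ht.2)
  exact abstr (fun n => gn g T (n + 1)) hc g T R hl hn

theorem t_KEY : S_KEY0 → S_KEY := by
  intro h0 g hg T y hT
  have h1 := key0 h0 (g := fun z => g (y + z)) (hg.comp (contDiff_const.add contDiff_id)) hT
  simp_rw [U_translate] at h1
  refine h1.trans (le_of_eq ?_)
  have h2 := lintegral_add_left_eq_self (μ := (volume : Measure (E 3)))
    ((ball y (2 * T + 2)).indicator fun z => ‖g z‖ₑ ^ 2 / ‖z - y‖ₑ ^ 2) y
  rw [← lintegral_indicator measurableSet_ball, ← lintegral_indicator measurableSet_ball, ← h2]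
  refine lintegral_congr fun z => ?_
  by_cases hz : ‖z‖ < 2 * T + 2
  · rw [indicator_of_mem (by rwa [mem_ball_zero_iff]), indicator_of_mem (by
      rw [mem_ball, dist_eq_norm, add_sub_cancel_left]; exact hz), add_sub_cancel_left]
  · rw [indicator_of_notMem (by rwa [mem_ball_zero_iff]), indicator_of_notMem (by
      rw [mem_ball, dist_eq_norm, add_sub_cancel_left]; exact hz)]

end Pool.Agent.U473.WV.KEY
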